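import Mathlib
import Pool.Agent.E8helper2.PS.Stm

set_option autoImplicit false

open MeasureTheory Filter Topology Complex

namespace Pool.Agent.E8helper34.PS

open Pool.Agent.E8helper2.PS

theorem norm_q (w : ℂ) : ‖cexp (I * w)‖ = Real.exp (-w.im) := by
  rw [Complex.norm_exp]
  congr 1
  simp [Complex.mul_re]

theorem exp_pow (N : ℕ) (w : ℂ) : cexp (-(I * N * w)) * cexp (I * w) ^ N = 1 := by
  rw [← Complex.exp_nat_mul, ← Complex.exp_add]
  rw [show -(I * N * w) + N * (I * w) = 0 by ring, Complex.exp_zero]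

theorem tail (a : ℕ → ℂ) (ε : ℝ) (N : ℕ) (h : ∀ n, N ≤ n → ‖a n‖ ≤ ε) (M : ℝ)
    (hM : ∀ n, ‖a n‖ ≤ M) (w : ℂ) (h0 : 0 < w.im) (h1 : w.im ≤ 1) :
    ‖cexp (-(I * N * w)) * ((∑' n, a n * cexp (I * w) ^ n) -
      ∑ n ∈ Finset.range N, a n * cexp (I * w) ^ n)‖ ≤ 2 * ε / w.im := by
  set q := cexp (I * w) with hq
  have hn : ‖q‖ = Real.exp (-w.im) := norm_q w
  have hq1 : ‖q‖ < 1 := by
    rw [hn]
    calc Real.exp (-w.im) < Real.exp 0 := Real.exp_lt_exp.2 (by linarith)
      _ = 1 := Real.exp_zero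
  have hq0 : 0 ≤ ‖q‖ := norm_nonneg _
  have hε : 0 ≤ ε := (norm_nonneg _).trans (h N le_rfl)
  have hsum : Summable fun n => a n * q ^ n := by
    apply Summable.of_norm_bounded (g := fun n => M * ‖q‖ ^ n)
      ((summable_geometric_of_lt_one hq0 hq1).mul_left M)
    intro n
    rw [norm_mul, norm_pow]
    exact mul_le_mul_of_nonneg_right (hM n) (by positivity)
  have h2 : (∑' n, a n * q ^ n) - ∑ n ∈ Finset.range N, a n * q ^ n =
      ∑' n, a (n + N) * q ^ (n + N) := by
    rw [← hsum.sum_add_tsum_nat_add N]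
    ring
  have h3 : cexp (-(I * N * w)) * (∑' n, a (n + N) * q ^ (n + N)) = ∑' n, a (n + N) * q ^ n := by
    rw [← tsum_mul_left]
    congr 1
    funext n
    rw [pow_add]
    have := exp_pow N w
    rw [← hq] at this
    linear_combination (a (n + N) * q ^ n) * this
  rw [h2, h3]
  have h4 : ‖∑' n, a (n + N) * q ^ n‖ ≤ ε * (1 - ‖q‖)⁻¹ := by
    apply tsum_of_norm_bounded ((hasSum_geometric_of_lt_one hq0 hq1).mul_left ε)
    intro n
    rw [norm_mul, norm_pow]
    exact mul_le_mul_of_nonneg_right (h _ (by omega)) (by positivity)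
  refine h4.trans ?_
  have h5 : w.im / 2 ≤ 1 - ‖q‖ := by
    rw [hn]
    have h6 : Real.exp (-w.im) ≤ 1 / (1 + w.im) := by
      rw [Real.exp_neg, ← one_div]
      exact one_div_le_one_div_of_le (by linarith) (by linarith [Real.add_one_le_exp w.im])
    have h7 : 1 / (1 + w.im) ≤ 1 - w.im / 2 := by
      rw [div_le_iff₀ (by linarith)]
      nlinarith
    linarith
  have h8 : (1 - ‖q‖)⁻¹ ≤ 2 / w.im := by
    rw [show 2 / w.im = (w.im / 2)⁻¹ by field_simp]
    exact inv_anti₀ (by positivity) h5
  calc ε * (1 - ‖q‖)⁻¹ ≤ ε * (2 / w.im) := mul_le_mul_of_nonneg_left h8 hε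
    _ = 2 * ε / w.im := by ring

theorem geo (p Y : ℝ) (hp : 0 ≤ p) (hY : 0 < Y) (h : p * (1 + Y) ≤ 1) (N : ℕ) :
    ∑ n ∈ Finset.range N, p ^ (N - n) ≤ 1 / Y := by
  induction N with
  | zero => simp; positivity
  | succ N ih =>
    rw [Finset.sum_range_succ]
    have e : ∑ n ∈ Finset.range N, p ^ (N + 1 - n) = p * ∑ n ∈ Finset.range N, p ^ (N - n) := by
      rw [Finset.mul_sum]
      refine Finset.sum_congr rfl fun n hn => ?_
      rw [Finset.mem_range] at hn
      rw [show N + 1 - n = (N - n) + 1 by omega, pow_succ]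
      ring
    rw [e, show N + 1 - N = 1 by omega, pow_one]
    have h1 : p * ∑ n ∈ Finset.range N, p ^ (N - n) ≤ p * (1 / Y) :=
      mul_le_mul_of_nonneg_left ih hp
    have h2 : p * (1 / Y) + p ≤ 1 / Y := by
      have : p * (1 / Y) + p = (p * (1 + Y)) / Y := by field_simp
      rw [this]
      exact div_le_div_of_nonneg_right h hY.le
    linarith

theorem low (a : ℕ → ℂ) (ε M : ℝ) (m N : ℕ) (hmN : m < N) (h : ∀ n, m ≤ n → ‖a n‖ ≤ ε)
    (hM : ∀ n, ‖a n‖ ≤ M) (w : ℂ) (h0 : w.im < 0) :
    ‖cexp (-(I * N * w)) * ∑ n ∈ Finset.range N, a n * cexp (I * w) ^ n‖ ≤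
      (ε + M * m / (N - m)) / (-w.im) := by
  set Y := -w.im with hY
  have hY0 : 0 < Y := by linarith
  have hε : 0 ≤ ε := (norm_nonneg _).trans (h m le_rfl)
  have hM0 : 0 ≤ M := (norm_nonneg _).trans (hM 0)
  set p := Real.exp (-Y) with hp
  have hp0 : 0 < p := Real.exp_pos _
  have hp1 : p ≤ 1 := Real.exp_le_one_iff.2 (by linarith)
  have hpY : p * (1 + Y) ≤ 1 := by
    have h1 := Real.add_one_le_exp Y
    have h2 : p * Real.exp Y = 1 := by rw [hp, ← Real.exp_add]; simp
    calc p * (1 + Y) ≤ p * Real.exp Y := mul_le_mul_of_nonneg_left (by linarith) hp0.le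
      _ = 1 := h2
  have h1 : ∀ n ∈ Finset.range N, ‖cexp (-(I * N * w)) * (a n * cexp (I * w) ^ n)‖ ≤
      ε * p ^ (N - n) + (if n < m then M * p ^ (N - m) else 0) := by
    intro n hn
    rw [Finset.mem_range] at hn
    have e1 : cexp (-(I * N * w)) * (a n * cexp (I * w) ^ n) =
        a n * cexp (-(I * (N - n : ℕ) * w)) := by
      have h2 := exp_pow n w
      have h3 : cexp (-(I * N * w)) = cexp (-(I * (N - n : ℕ) * w)) * cexp (-(I * n * w)) := by
        rw [← Complex.exp_add]
        congr 1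
        rw [Nat.cast_sub hn.le]
        ring
      rw [h3]
      linear_combination (a n * cexp (-(I * (N - n : ℕ) * w))) * h2
    have e2 : ‖cexp (-(I * (N - n : ℕ) * w))‖ = p ^ (N - n) := by
      rw [Complex.norm_exp, hp, ← Real.exp_nat_mul]
      congr 1
      have : (-(I * ((N - n : ℕ) : ℂ) * w)).re = ((N - n : ℕ) : ℝ) * w.im := by
        simp [Complex.mul_re, Complex.mul_im]
      rw [this, hY]
      ring
    rw [e1, norm_mul, e2]
    split_ifs with hnm
    · have h4 : p ^ (N - n) ≤ p ^ (N - m) := pow_le_pow_of_le_one hp0.le hp1 (by omega)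
      have h5 : ‖a n‖ * p ^ (N - n) ≤ M * p ^ (N - m) :=
        mul_le_mul (hM n) h4 (by positivity) hM0
      have h6 : 0 ≤ ε * p ^ (N - n) := by positivity
      linarith
    · rw [add_zero]
      exact mul_le_mul_of_nonneg_right (h n (by omega)) (by positivity)
  have h2 : p ^ (N - m) ≤ 1 / (((N : ℝ) - m) * Y) := by
    rw [hp, ← Real.exp_nat_mul, Nat.cast_sub hmN.le]
    have hNm : (0 : ℝ) < (N : ℝ) - m := by
      have : (m : ℝ) < N := by exact_mod_cast hmN
      linarith
    rw [show ((N : ℝ) - m) * -Y = -(((N : ℝ) - m) * Y) by ring, Real.exp_neg, ← one_div]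
    apply one_div_le_one_div_of_le (by positivity)
    have := Real.add_one_le_exp (((N : ℝ) - m) * Y)
    linarith
  have h3 : ∑ n ∈ Finset.range N, (if n < m then M * p ^ (N - m) else 0) ≤ m * (M * p ^ (N - m)) := by
    rw [← Finset.sum_filter, Finset.sum_const, nsmul_eq_mul]
    apply mul_le_mul_of_nonneg_right _ (by positivity)
    have : ((Finset.range N).filter (· < m)).card ≤ m := by
      calc ((Finset.range N).filter (· < m)).card ≤ (Finset.range m).card := by
            apply Finset.card_le_card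
            intro n hn
            rw [Finset.mem_filter] at hn
            exact Finset.mem_range.2 hn.2
        _ = m := Finset.card_range m
    exact_mod_cast this
  rw [Finset.mul_sum]
  refine (norm_sum_le _ _).trans ((Finset.sum_le_sum h1).trans ?_)
  rw [Finset.sum_add_distrib, ← Finset.mul_sum]
  have h4 := mul_le_mul_of_nonneg_left (geo p Y hp0.le hY0 hpY N) hε
  have h5 : (m : ℝ) * (M * p ^ (N - m)) ≤ m * (M * (1 / (((N : ℝ) - m) * Y))) := by
    apply mul_le_mul_of_nonneg_left _ (Nat.cast_nonneg _)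
    exact mul_le_mul_of_nonneg_left h2 hM0
  have hNm : (0 : ℝ) < (N : ℝ) - m := by
    have : (m : ℝ) < N := by exact_mod_cast hmN
    linarith
  have e : (ε + M * m / (N - m)) / Y = ε * (1 / Y) + m * (M * (1 / (((N : ℝ) - m) * Y))) := by
    field_simp
  rw [e]
  linarith

theorem t_RIESZ : S_RIESZ := by
  intro a z r g ha hz hr hg hs
  obtain ⟨M, hM⟩ : ∃ M : ℝ, ∀ n, ‖a n‖ ≤ M := by
    obtain ⟨M, hM⟩ := (Metric.isBounded_range_of_tendsto a ha).exists_norm_le
    exact ⟨M, fun n => hM _ ⟨n, rfl⟩⟩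
  have hM0 : 0 ≤ M := (norm_nonneg _).trans (hM 0)
  obtain ⟨x, hzx⟩ : ∃ x : ℝ, cexp (I * x) = z := by
    refine ⟨Complex.arg z, ?_⟩
    have h := Complex.norm_mul_exp_arg_mul_I z
    rw [hz, Complex.ofReal_one, one_mul] at h
    rw [mul_comm]
    exact h
  have hcont : ContinuousAt (fun w : ℂ => cexp (I * w)) (x : ℂ) := by fun_prop
  obtain ⟨δ, hδ, hball⟩ := Metric.continuousAt_iff.1 hcont r hr
  have hball' : ∀ w : ℂ, dist w (x : ℂ) < δ → cexp (I * w) ∈ Metric.ball z r := by
    intro w hw
    have := hball hw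
    rw [hzx] at this
    exact this
  obtain ⟨d, hd0, hd1, hdδ⟩ : ∃ d : ℝ, 0 < d ∧ d ≤ 1 ∧ 2 * d < δ := by
    refine ⟨min (δ / 3) 1, by positivity, min_le_right _ _, ?_⟩
    have := min_le_left (δ / 3) 1
    linarith
  -- the rectangle
  have hQ : ∀ w : ℂ, |w.re - x| ≤ d → |w.im| ≤ d → dist w (x : ℂ) < δ := by
    intro w h1 h2
    rw [dist_eq_norm]
    have h3 := Complex.norm_le_abs_re_add_abs_im (w - x)
    simp only [Complex.sub_re, Complex.ofReal_re, Complex.sub_im, Complex.ofReal_im, sub_zero] at h3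
    linarith
  let G : ℂ → ℂ := fun w => g (cexp (I * w))
  have hGd : DifferentiableOn ℂ G (Metric.ball (x : ℂ) δ) := by
    apply hg.comp
    · fun_prop
    · intro w hw
      exact hball' w hw
  let Q : Set ℂ := {w | |w.re - x| ≤ d ∧ |w.im| ≤ d}
  have hQball : Q ⊆ Metric.ball (x : ℂ) δ := fun w hw => hQ w hw.1 hw.2
  have c1 : Continuous (fun w : ℂ => |w.re - x|) := by fun_prop
  have c2 : Continuous (fun w : ℂ => |w.im|) := by fun_prop
  have hQclosed : IsClosed Q :=
    (isClosed_le c1 continuous_const).inter (isClosed_le c2 continuous_const)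
  have hQb : Bornology.IsBounded Q := Metric.isBounded_ball.subset hQball
  have hQc : IsCompact Q := Metric.isCompact_of_isClosed_isBounded hQclosed hQb
  obtain ⟨C, hC⟩ := hQc.exists_bound_of_continuousOn (hGd.continuousOn.mono hQball)
  have hxQ : (x : ℂ) ∈ Q := by
    simp only [Q, Set.mem_setOf_eq, Complex.ofReal_re, Complex.ofReal_im, sub_self, abs_zero]
    exact ⟨hd0.le, hd0.le⟩
  have hC0 : 0 ≤ C := (norm_nonneg _).trans (hC _ hxQ)
  let E : ℕ → ℂ → ℂ := fun N w => cexp (-(I * N * w)) *
    (G w - ∑ n ∈ Finset.range N, a n * cexp (I * w) ^ n)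
  have hE : ∀ (ε : ℝ) (m N : ℕ), m < N → (∀ n, m ≤ n → ‖a n‖ ≤ ε) → ∀ w ∈ Q, w.im ≠ 0 →
      ‖E N w‖ ≤ (2 * ε + C / N + M * m / (N - m)) / |w.im| := by
    intro ε m N hmN h w hw hne
    have hε : 0 ≤ ε := (norm_nonneg _).trans (h m le_rfl)
    have hN0 : (0 : ℝ) < N := by exact_mod_cast (by omega : 0 < N)
    have hNm : (0 : ℝ) < (N : ℝ) - m := by
      have : (m : ℝ) < N := by exact_mod_cast hmN
      linarith
    rcases lt_or_gt_of_ne hne with h0 | h0
    · rw [abs_of_neg h0]
      have h1 := low a ε M m N hmN h hM w h0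
      have h2 : ‖cexp (-(I * N * w)) * G w‖ ≤ (C / N) / (-w.im) := by
        rw [norm_mul, Complex.norm_exp]
        have e : (-(I * (N : ℂ) * w)).re = N * w.im := by simp [Complex.mul_re, Complex.mul_im]
        rw [e]
        have h3 : Real.exp (N * w.im) ≤ 1 / (N * (-w.im)) := by
          rw [show (N : ℝ) * w.im = -(N * (-w.im)) by ring, Real.exp_neg, ← one_div]
          apply one_div_le_one_div_of_le (mul_pos hN0 (by linarith))
          have := Real.add_one_le_exp (N * (-w.im))
          linarith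
        calc Real.exp (N * w.im) * ‖G w‖ ≤ 1 / (N * (-w.im)) * C := by
              apply mul_le_mul h3 (hC w hw) (norm_nonneg _)
              have : (0 : ℝ) < N * (-w.im) := mul_pos hN0 (by linarith)
              positivity
          _ = (C / N) / (-w.im) := by
              have : -w.im ≠ 0 := by linarith
              field_simp
      have h4 : E N w = cexp (-(I * N * w)) * G w -
          cexp (-(I * N * w)) * ∑ n ∈ Finset.range N, a n * cexp (I * w) ^ n := by
        show cexp (-(I * N * w)) * (G w - _) = _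
        rw [mul_sub]
      rw [h4]
      refine (norm_sub_le _ _).trans ?_
      have h5 : (2 * ε + C / N + M * m / (N - m)) / (-w.im) =
          (C / N) / (-w.im) + (ε + M * m / (N - m)) / (-w.im) + ε / (-w.im) := by
        rw [← add_div, ← add_div]
        congr 1
        ring
      have h6 : 0 ≤ ε / (-w.im) := div_nonneg hε (by linarith)
      rw [h5]
      linarith
    · rw [abs_of_pos h0]
      have him : w.im ≤ d := by
        have := hw.2
        rwa [abs_of_pos h0] at this
      have h1 := tail a ε N (fun n hn => h n (by omega)) M hM w h0 (by linarith)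
      have h2 : G w = ∑' n, a n * cexp (I * w) ^ n := by
        apply hs _ (hball' w (hQball hw))
        rw [norm_q]
        calc Real.exp (-w.im) < Real.exp 0 := Real.exp_lt_exp.2 (by linarith)
          _ = 1 := Real.exp_zero
      have h3 : ‖E N w‖ ≤ 2 * ε / w.im := by
        show ‖cexp (-(I * N * w)) * (G w - _)‖ ≤ _
        rw [h2]
        exact h1
      refine h3.trans ?_
      apply div_le_div_of_nonneg_right _ h0.le
      have h4 : 0 ≤ C / N := by positivity
      have h5 : 0 ≤ M * m / ((N : ℝ) - m) := by positivity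
      linarith
  have hEd : ∀ N, DifferentiableOn ℂ (E N) (Metric.ball (x : ℂ) δ) := by
    intro N
    apply DifferentiableOn.mul
    · fun_prop
    · apply DifferentiableOn.sub hGd
      fun_prop
  let U : Set ℂ := {w | |w.re - x| < d ∧ |w.im| < d}
  have hUo : IsOpen U :=
    (isOpen_lt c1 continuous_const).inter (isOpen_lt c2 continuous_const)
  have hUQ : closure U ⊆ Q := closure_minimal (fun w hw => ⟨hw.1.le, hw.2.le⟩) hQclosed
  let H : ℕ → ℂ → ℂ := fun N w => E N w * ((w - (x - d : ℝ)) * (w - (x + d : ℝ)))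
  have hH : ∀ (η : ℝ) (N : ℕ), 0 ≤ η → (∀ w ∈ Q, w.im ≠ 0 → ‖E N w‖ ≤ η / |w.im|) →
      ‖H N x‖ ≤ 9 * η := by
    intro η N hη h
    have hside : ∀ w ∈ Q, ‖w - (x - d : ℝ)‖ ≤ 3 * d ∧ ‖w - (x + d : ℝ)‖ ≤ 3 * d := by
      intro w hw
      have h1 := abs_le.1 hw.1
      constructor
      · have h3 := Complex.norm_le_abs_re_add_abs_im (w - (x - d : ℝ))
        simp only [Complex.sub_re, Complex.ofReal_re, Complex.sub_im, Complex.ofReal_im,
          sub_zero] at h3
        have h4 : |w.re - (x - d)| ≤ 2 * d := abs_le.2 ⟨by linarith, by linarith⟩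
        linarith [hw.2]
      · have h3 := Complex.norm_le_abs_re_add_abs_im (w - (x + d : ℝ))
        simp only [Complex.sub_re, Complex.ofReal_re, Complex.sub_im, Complex.ofReal_im,
          sub_zero] at h3
        have h4 : |w.re - (x + d)| ≤ 2 * d := abs_le.2 ⟨by linarith, by linarith⟩
        linarith [hw.2]
    apply Complex.norm_le_of_forall_mem_frontier_norm_le (U := U)
    · exact hQb.subset (subset_closure.trans hUQ)
    · apply DifferentiableOn.diffContOnCl
      apply DifferentiableOn.mono _ (hUQ.trans hQball)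
      apply (hEd N).mul
      fun_prop
    · intro w hw
      rw [hUo.frontier_eq] at hw
      have hwQ := hUQ hw.1
      have hwU := hw.2
      obtain ⟨s1, s2⟩ := hside w hwQ
      have e0 : ‖H N w‖ = ‖E N w‖ * (‖w - (x - d : ℝ)‖ * ‖w - (x + d : ℝ)‖) := by
        rw [← norm_mul, ← norm_mul]
      rw [e0]
      by_cases him : |w.im| = d
      · have hne : w.im ≠ 0 := by
          intro h0
          rw [h0, abs_zero] at him
          linarith
        have h1 := h w hwQ hne
        rw [him] at h1
        calc ‖E N w‖ * (‖w - (x - d : ℝ)‖ * ‖w - (x + d : ℝ)‖) ≤ (η / d) * ((3 * d) * (3 * d)) := by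
              apply mul_le_mul h1 _ (by positivity) (by positivity)
              exact mul_le_mul s1 s2 (norm_nonneg _) (by positivity)
          _ = 9 * η * d := by field_simp; ring
          _ ≤ 9 * η * 1 := mul_le_mul_of_nonneg_left hd1 (by positivity)
          _ = 9 * η := mul_one _
      · have hre : |w.re - x| = d := by
          by_contra hne
          exact hwU ⟨lt_of_le_of_ne hwQ.1 hne, lt_of_le_of_ne hwQ.2 him⟩
        have hmin : ‖w - (x - d : ℝ)‖ * ‖w - (x + d : ℝ)‖ ≤ |w.im| * (3 * d) := by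
          rcases (abs_eq hd0.le).1 hre with h1 | h1
          · have e : w - (x + d : ℝ) = w.im * I := by
              apply Complex.ext
              · simp; linarith
              · simp
            have e2 : ‖w - (x + d : ℝ)‖ = |w.im| := by
              rw [e, norm_mul, Complex.norm_I, mul_one, Complex.norm_real]
              rfl
            rw [e2, mul_comm]
            exact mul_le_mul_of_nonneg_left s1 (abs_nonneg _)
          · have e : w - (x - d : ℝ) = w.im * I := by
              apply Complex.ext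
              · simp; linarith
              · simp
            have e2 : ‖w - (x - d : ℝ)‖ = |w.im| := by
              rw [e, norm_mul, Complex.norm_I, mul_one, Complex.norm_real]
              rfl
            rw [e2]
            exact mul_le_mul_of_nonneg_left s2 (abs_nonneg _)
        by_cases h0 : w.im = 0
        · rw [h0, abs_zero, zero_mul] at hmin
          have h2 : ‖E N w‖ * (‖w - (x - d : ℝ)‖ * ‖w - (x + d : ℝ)‖) ≤ ‖E N w‖ * 0 :=
            mul_le_mul_of_nonneg_left hmin (norm_nonneg _)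
          rw [mul_zero] at h2
          exact h2.trans (by positivity)
        · have h1 := h w hwQ h0
          have hpos : 0 < |w.im| := abs_pos.2 h0
          calc ‖E N w‖ * (‖w - (x - d : ℝ)‖ * ‖w - (x + d : ℝ)‖) ≤
                (η / |w.im|) * (|w.im| * (3 * d)) :=
                mul_le_mul h1 hmin (by positivity) (by positivity)
            _ = 3 * η * d := by field_simp
            _ ≤ 9 * η * 1 := mul_le_mul (by linarith) hd1 hd0.le (by positivity)
            _ = 9 * η := mul_one _
    · apply subset_closure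
      show |((x : ℝ) : ℂ).re - x| < d ∧ |((x : ℝ) : ℂ).im| < d
      simp [hd0]
  have hHx : ∀ N, ‖H N x‖ = ‖G x - ∑ n ∈ Finset.range N, a n * z ^ n‖ * (d * d) := by
    intro N
    show ‖cexp (-(I * N * x)) * (G x - ∑ n ∈ Finset.range N, a n * cexp (I * x) ^ n) *
      (((x : ℂ) - (x - d : ℝ)) * ((x : ℂ) - (x + d : ℝ)))‖ = _
    rw [norm_mul, norm_mul, norm_mul, hzx]
    have e1 : ‖cexp (-(I * N * x))‖ = 1 := by
      rw [Complex.norm_exp]
      have : (-(I * (N : ℂ) * (x : ℂ))).re = 0 := by simp [Complex.mul_re, Complex.mul_im]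
      rw [this, Real.exp_zero]
    have e2 : ‖(x : ℂ) - (x - d : ℝ)‖ = d := by
      rw [← Complex.ofReal_sub, Complex.norm_real]
      rw [show x - (x - d) = d by ring]
      exact abs_of_pos hd0
    have e3 : ‖(x : ℂ) - (x + d : ℝ)‖ = d := by
      rw [← Complex.ofReal_sub, Complex.norm_real]
      rw [show x - (x + d) = -d by ring, norm_neg]
      exact abs_of_pos hd0
    rw [e1, e2, e3, one_mul]
  have hGx : G x = g z := by
    show g (cexp (I * x)) = g z
    rw [hzx]
  rw [Metric.tendsto_atTop]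
  intro ε' hε'
  set ε : ℝ := ε' * (d * d) / 54 with hε
  have hεp : 0 < ε := by positivity
  obtain ⟨m, hm⟩ := Metric.tendsto_atTop.1 ha ε hεp
  have hm' : ∀ n, m ≤ n → ‖a n‖ ≤ ε := by
    intro n hn
    have := hm n hn
    rw [dist_zero_right] at this
    exact this.le
  have hl1 : Tendsto (fun N : ℕ => C / (N : ℝ)) atTop (𝓝 0) :=
    tendsto_const_nhds.div_atTop tendsto_natCast_atTop_atTop
  have hl2 : Tendsto (fun N : ℕ => M * m / ((N : ℝ) - m)) atTop (𝓝 0) := by
    apply tendsto_const_nhds.div_atTop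
    exact tendsto_atTop_add_const_right _ _ tendsto_natCast_atTop_atTop
  obtain ⟨N1, h1⟩ := Metric.tendsto_atTop.1 hl1 ε hεp
  obtain ⟨N2, h2⟩ := Metric.tendsto_atTop.1 hl2 ε hεp
  refine ⟨N1 + N2 + m + 1, fun N hN => ?_⟩
  have k1 : C / (N : ℝ) < ε := by
    have := h1 N (by omega)
    rw [dist_zero_right] at this
    exact (le_abs_self _).trans_lt this
  have k2 : M * m / ((N : ℝ) - m) < ε := by
    have := h2 N (by omega)
    rw [dist_zero_right] at this
    exact (le_abs_self _).trans_lt this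
  have hNm : (0 : ℝ) < (N : ℝ) - m := by
    have : (m : ℝ) < N := by exact_mod_cast (by omega : m < N)
    linarith
  have k3 := hH (2 * ε + C / N + M * m / (N - m)) N (by positivity)
    (hE ε m N (by omega) hm')
  rw [hHx N, hGx] at k3
  rw [dist_comm, dist_eq_norm]
  have k4 : ‖g z - ∑ n ∈ Finset.range N, a n * z ^ n‖ * (d * d) < ε' * (d * d) := by
    have : 9 * (2 * ε + C / N + M * m / (N - m)) < 54 * ε := by linarith
    have e : 54 * ε = ε' * (d * d) := by rw [hε]; ring
    linarith
  exact lt_of_mul_lt_mul_right k4 (by positivity)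

end Pool.Agent.E8helper34.PS
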